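import Pool.Agent.T6.H87.CDL.SUB
import Pool.Agent.T6.H87.CDL.DEC
import Pool.Agent.T6.H87.CDL.CNT
import Pool.Agent.T6.H87.CDL.FAM
import Pool.Agent.T6.H87.CDL.LOW
import Pool.Agent.T6.H87.CDL.UP
import Pool.Agent.T6.H87.CDL.NUM

set_option autoImplicit false

/-!
# Almost all maximal Condorcet domains are irreducible, for infinitely many degrees

Let `m n` be the number of isomorphism classes of maximal Condorcet domains of degree `n` and `r n` the number of the
classes of the reducible ones. For every `N ≥ 1` there is a degree `n` with `N ≤ n ≤ 1000 N ^ 2` and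
`r n ≤ 2 ^ (-N ^ 2) m n ≤ 2 ^ (-n / 1000) m n`. So the lower limit of `r n / m n` is `0`, and the proportion of the reducible
classes is even exponentially small for infinitely many `n`.

The proof. A reducible domain is `C₁` with `C₂` in the place of one alternative, so `r n` is at most the sum of the numbers
`(n - k + 1) m (n - k + 1) m k` over `2 ≤ k < n` (uniqueness is not needed). If this sum is at least `2 ^ (-N ^ 2) m n` for all
`n` in `[N, T]` then `m T ≤ exp (O (N ^ 2 T))`, by `m k ≤ 2 ^ (k ^ 3)` for `k < N`. But there are `2 ^ (T ^ 2 / 8)` Condorcet domains no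
two of which are in a common Condorcet domain: `T / 2` alternatives `z_i` on top, and `T / 4` pairs `a_j, b_j`; if the pair `j`
is moved on top of the other pairs then `z_i` may be moved below `a_j b_j`, or between `b_j` and `a_j`, and all the
`T ^ 2 / 8` choices are independent.
-/

namespace Pool.Agent.Results.MP_dda9b2_co.IrreducibleInfinitelyOften

/-- `q` is a linear order of the alternatives: `q a b` means that `a` is above `b`. -/
def Lin {α : Type} (q : α → α → Prop) : Prop :=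
  (∀ a, ¬ q a a) ∧ (∀ a b c, q a b → q b c → q a c) ∧ ∀ a b, a ≠ b → q a b ∨ q b a

/-- `S` is a Condorcet domain: a set of linear orders such that no three of them list three
alternatives as `a b c`, `b c a`, `c a b` (a Latin square). -/
def IsCD {α : Type} (S : Set (α → α → Prop)) : Prop :=
  (∀ q ∈ S, Lin q) ∧ ∀ q ∈ S, ∀ s ∈ S, ∀ t ∈ S, ∀ a b c : α,
    ¬ ((q a b ∧ q b c) ∧ (s b c ∧ s c a) ∧ (t c a ∧ t a b))

/-- `S` is a maximal Condorcet domain. -/
def IsMaxCD {α : Type} (S : Set (α → α → Prop)) : Prop :=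
  IsCD S ∧ ∀ T : Set (α → α → Prop), IsCD T → S ⊆ T → T ⊆ S

/-- renaming of the alternatives of an order -/
def tr {α β : Type} (σ : α ≃ β) (q : α → α → Prop) : β → β → Prop :=
  fun x y => q (σ.symm x) (σ.symm y)

/-- `T` is obtained from `S` by renaming the alternatives. -/
def Iso {α β : Type} (S : Set (α → α → Prop)) (T : Set (β → β → Prop)) : Prop :=
  ∃ σ : α ≃ β, T = tr σ '' S

/-- `B` is a block of consecutive elements in every order of `S`. -/
def Block {α : Type} (S : Set (α → α → Prop)) (B : Set α) : Prop :=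
  ∀ q ∈ S, ∀ a ∈ B, ∀ b ∈ B, ∀ x, x ∉ B → ¬ (q a x ∧ q x b)

/-- Some proper subset with at least two elements is a block in every order of `S`. -/
def Reducible {α : Type} (S : Set (α → α → Prop)) : Prop :=
  ∃ B : Set α, B ≠ Set.univ ∧ B.Nontrivial ∧ Block S B

/-- the isomorphism class of `S` -/
def cls {n : ℕ} (S : Set (Fin n → Fin n → Prop)) : Set (Set (Fin n → Fin n → Prop)) :=
  {T | Iso S T}

/-- the number `m_n` of the isomorphism classes of maximal Condorcet domains of degree `n` -/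
noncomputable def m (n : ℕ) : ℕ :=
  {K : Set (Set (Fin n → Fin n → Prop)) | ∃ S, IsMaxCD S ∧ K = cls S}.ncard

/-- the number `r_n` of the reducible ones -/
noncomputable def r (n : ℕ) : ℕ :=
  {K : Set (Set (Fin n → Fin n → Prop)) | ∃ S, IsMaxCD S ∧ Reducible S ∧ K = cls S}.ncard

theorem result :
    (∀ n, 1 ≤ n → 0 < m n) ∧
    (∀ N : ℕ, 1 ≤ N → ∃ n, N ≤ n ∧ n ≤ 1000 * N ^ 2 ∧ 2 ^ N ^ 2 * r n ≤ m n) ∧
    ∀ N : ℕ, ∃ n, N ≤ n ∧ (r n : ℝ) ≤ (2 : ℝ) ^ (-(n : ℝ) / 1000) * m n := by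
  have hlow : Pool.Agent.T6.H87.CDL.StmLOW :=
    Pool.Agent.T6.H87.CDL.low Pool.Agent.T6.H87.CDL.fam_cd
  have hcnt : Pool.Agent.T6.H87.CDL.StmCNT :=
    Pool.Agent.T6.H87.CDL.cnt Pool.Agent.T6.H87.CDL.sub_cd
      (Pool.Agent.T6.H87.CDL.dec Pool.Agent.T6.H87.CDL.sub_cd)
  have hend : ∀ N : ℕ, 1 ≤ N → ∃ n, N ≤ n ∧ n ≤ 1000 * N ^ 2 ∧ 2 ^ N ^ 2 * r n ≤ m n :=
    Pool.Agent.T6.H87.CDL.num m r hcnt hlow Pool.Agent.T6.H87.CDL.up
  refine ⟨fun n _ => ?_, hend, fun N => ?_⟩
  · have h := hlow n 0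
    have h' : 2 ^ (n * 0) ≤ m (n + 2 * 0) * (n + 2 * 0).factorial := h
    simp only [mul_zero, pow_zero, add_zero] at h'
    by_contra h0
    have h1 : m n = 0 := by omega
    rw [h1, zero_mul] at h'
    omega
  · obtain ⟨n, h1, h2, h3⟩ := hend (N + 1) (by omega)
    refine ⟨n, by omega, ?_⟩
    have h4 : ((2 : ℝ) ^ ((N + 1) ^ 2 : ℕ)) * r n ≤ m n := by exact_mod_cast h3
    have h5 : (2 : ℝ) ^ ((n : ℝ) / 1000) ≤ (2 : ℝ) ^ ((N + 1) ^ 2 : ℕ) := by
      rw [← Real.rpow_natCast]
      apply Real.rpow_le_rpow_of_exponent_le (by norm_num)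
      rw [div_le_iff₀ (by norm_num)]
      have : (n : ℝ) ≤ ((1000 * (N + 1) ^ 2 : ℕ) : ℝ) := by exact_mod_cast h2
      push_cast at this ⊢
      linarith
    have h6 : (0 : ℝ) ≤ (r n : ℝ) := Nat.cast_nonneg _
    have h7 : (2 : ℝ) ^ ((n : ℝ) / 1000) * r n ≤ m n :=
      le_trans (mul_le_mul_of_nonneg_right h5 h6) h4
    rw [neg_div, Real.rpow_neg (by norm_num), ← div_eq_inv_mul, le_div_iff₀ (by positivity)]
    linarith [h7, mul_comm ((2 : ℝ) ^ ((n : ℝ) / 1000)) (r n : ℝ)]

end Pool.Agent.Results.MP_dda9b2_co.IrreducibleInfinitelyOften
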